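import Mathlib

set_option autoImplicit false
set_option linter.unusedSectionVars false

namespace Pool.Agent.MP_38296a_co

open Finset

section general

variable {ι β : Type*} [DecidableEq ι] [DecidableEq β]

/-- pairs with the same value -/
def coll (f : ι → β) (X : Finset ι) : Finset (ι × ι) :=
  (X ×ˢ X).filter (fun q => f q.1 = f q.2)

lemma mem_coll {f : ι → β} {X : Finset ι} {q : ι × ι} :
    q ∈ coll f X ↔ q.1 ∈ X ∧ q.2 ∈ X ∧ f q.1 = f q.2 := by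
  simp [coll, and_assoc]

lemma card_sq_le_coll (f : ι → β) (X : Finset ι) (A : Finset β) (h : ∀ x ∈ X, f x ∈ A) :
    X.card ^ 2 ≤ A.card * (coll f X).card := by
  have h1 : X.card = ∑ y ∈ A, (X.filter (fun x => f x = y)).card :=
    card_eq_sum_card_fiberwise (fun x hx => h x hx)
  have h2 : (coll f X).card = ∑ y ∈ A, (X.filter (fun x => f x = y)).card ^ 2 := by
    rw [card_eq_sum_card_fiberwise (f := fun q : ι × ι => f q.1) (t := A)
      (fun q hq => h _ (mem_coll.1 hq).1)]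
    refine sum_congr rfl fun y _ => ?_
    rw [sq, ← card_product]
    congr 1
    ext q
    simp only [mem_filter, mem_coll, mem_product]
    constructor
    · rintro ⟨⟨h1, h2, h3⟩, h4⟩
      exact ⟨⟨h1, h4⟩, h2, h3 ▸ h4⟩
    · rintro ⟨⟨h1, h4⟩, h2, h3⟩
      exact ⟨⟨h1, h2, h4.trans h3.symm⟩, h4⟩
  rw [h1, h2]
  exact sq_sum_le_card_mul_sum_sq

lemma sum_inv_fiber (f : ι → β) (X : Finset ι) :
    ∑ x ∈ X, (1 : ℝ) / (X.filter (fun x' => f x' = f x)).card = (X.image f).card := by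
  rw [sum_comp (fun y => (1 : ℝ) / (X.filter (fun x' => f x' = y)).card) f]
  rw [card_eq_sum_ones, Nat.cast_sum]
  refine sum_congr rfl fun y hy => ?_
  obtain ⟨x, hx, rfl⟩ := mem_image.1 hy
  have : (X.filter (fun x' => f x' = f x)).card ≠ 0 :=
    card_ne_zero.2 ⟨x, mem_filter.2 ⟨hx, rfl⟩⟩
  have h' : ((X.filter (fun x' => f x' = f x)).card : ℝ) ≠ 0 := by exact_mod_cast this
  simp [h']

lemma sum_fg {γ : Type*} [DecidableEq γ] (f : ι → β) (g : ι → γ) (X : Finset ι)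
    (N1 N2 : ℝ) (h1 : ((X.image f).card : ℝ) ≤ N1) (h2 : ((X.image g).card : ℝ) ≤ N2)
    (hN1 : 0 < N1) (hN2 : 0 < N2) :
    (X.card : ℝ) ^ 3 / (32 * N1 * N2) ≤
      ∑ x ∈ X, ((X.filter (fun x' => f x' = f x)).card : ℝ) *
        (X.filter (fun x' => g x' = g x)).card := by
  rcases X.eq_empty_or_nonempty with rfl | hX
  · simp
  have hc : (0 : ℝ) < X.card := by exact_mod_cast hX.card_pos
  set μ : ℝ := X.card / (4 * N1) with hμ
  set ν : ℝ := X.card / (4 * N2) with hν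
  have hμ0 : 0 < μ := by positivity
  have hν0 : 0 < ν := by positivity
  have key : ∀ x ∈ X, (1 : ℝ) ≤ ((X.filter (fun x' => f x' = f x)).card : ℝ) *
        (X.filter (fun x' => g x' = g x)).card / (μ * ν) +
        μ * (1 / (X.filter (fun x' => f x' = f x)).card) +
        ν * (1 / (X.filter (fun x' => g x' = g x)).card) := by
    intro x hx
    have hF : (0 : ℝ) < (X.filter (fun x' => f x' = f x)).card :=
      Nat.cast_pos.2 (card_pos.2 ⟨x, mem_filter.2 ⟨hx, rfl⟩⟩)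
    have hG : (0 : ℝ) < (X.filter (fun x' => g x' = g x)).card :=
      Nat.cast_pos.2 (card_pos.2 ⟨x, mem_filter.2 ⟨hx, rfl⟩⟩)
    generalize ((X.filter (fun x' => f x' = f x)).card : ℝ) = F at *
    generalize ((X.filter (fun x' => g x' = g x)).card : ℝ) = G at *
    have p1 : 0 ≤ F * G / (μ * ν) := by positivity
    have p2 : 0 ≤ μ * (1 / F) := by positivity
    have p3 : 0 ≤ ν * (1 / G) := by positivity
    by_cases c1 : F ≤ μ
    · have : 1 ≤ μ * (1 / F) := by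
        rw [mul_one_div, le_div_iff₀ hF]; linarith
      linarith
    by_cases c2 : G ≤ ν
    · have : 1 ≤ ν * (1 / G) := by
        rw [mul_one_div, le_div_iff₀ hG]; linarith
      linarith
    have : 1 ≤ F * G / (μ * ν) := by
      rw [le_div_iff₀ (by positivity), one_mul]
      exact mul_le_mul (not_le.1 c1).le (not_le.1 c2).le hν0.le hF.le
    linarith
  have hs := sum_le_sum key
  rw [sum_add_distrib, sum_add_distrib, ← mul_sum, ← mul_sum, sum_inv_fiber, sum_inv_fiber,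
    ← sum_div] at hs
  simp only [sum_const, nsmul_eq_mul, mul_one] at hs
  have e1 : μ * (X.image f).card ≤ X.card / 4 := by
    calc μ * (X.image f).card ≤ μ * N1 := by gcongr
      _ = X.card / 4 := by rw [hμ]; field_simp
  have e2 : ν * (X.image g).card ≤ X.card / 4 := by
    calc ν * (X.image g).card ≤ ν * N2 := by gcongr
      _ = X.card / 4 := by rw [hν]; field_simp
  set S := ∑ x ∈ X, ((X.filter (fun x' => f x' = f x)).card : ℝ) *
        (X.filter (fun x' => g x' = g x)).card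
  have e3 : (X.card : ℝ) / 2 ≤ S / (μ * ν) := by linarith
  rw [le_div_iff₀ (by positivity)] at e3
  calc (X.card : ℝ) ^ 3 / (32 * N1 * N2) = X.card / 2 * (μ * ν) := by
        rw [hμ, hν]; field_simp; ring
    _ ≤ S := e3

lemma card_image_lab (X : Finset ι) (w h : ι → ℕ) (W : ℕ) (H : ℕ → ℕ)
    (hw : ∀ x ∈ X, w x < W) (hh : ∀ x ∈ X, h x ≤ H (w x)) :
    (X.image (fun x => (w x, h x))).card ≤ ∑ v ∈ range W, (H v + 1) := by
  have : X.image (fun x => (w x, h x)) ⊆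
      (range W).biUnion (fun v => (range (H v + 1)).image (fun u => (v, u))) := by
    intro y hy
    obtain ⟨x, hx, rfl⟩ := mem_image.1 hy
    exact mem_biUnion.2 ⟨w x, mem_range.2 (hw x hx),
      mem_image.2 ⟨h x, mem_range.2 (Nat.lt_succ_of_le (hh x hx)), rfl⟩⟩
  refine (card_le_card this).trans (card_biUnion_le.trans (sum_le_sum fun v _ => ?_))
  exact card_image_le.trans (by simp)

end general

section cycles

variable {ι α : Type*} [DecidableEq ι] [DecidableEq α]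

/-- linear triple system with roles -/
structure Lin (Z : Finset ι) (a b c : ι → α) : Prop where
  ab : ∀ z ∈ Z, ∀ z' ∈ Z, a z = a z' → b z = b z' → z = z'
  ac : ∀ z ∈ Z, ∀ z' ∈ Z, a z = a z' → c z = c z' → z = z'
  bc : ∀ z ∈ Z, ∀ z' ∈ Z, b z = b z' → c z = c z' → z = z'

/-- closed walks of length four -/
def cyc (a c : ι → α) (G : Finset ι) : Finset ((ι × ι) × (ι × ι)) :=
  coll (fun p : ι × ι => (a p.1, a p.2)) (coll c G)

lemma mem_cyc {a c : ι → α} {G : Finset ι} {q : (ι × ι) × (ι × ι)} :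
    q ∈ cyc a c G ↔ q.1.1 ∈ G ∧ q.1.2 ∈ G ∧ q.2.1 ∈ G ∧ q.2.2 ∈ G ∧ c q.1.1 = c q.1.2 ∧
      c q.2.1 = c q.2.2 ∧ a q.1.1 = a q.2.1 ∧ a q.1.2 = a q.2.2 := by
  simp only [cyc, mem_coll, Prod.mk.injEq]
  tauto

lemma card_cyc (a c : ι → α) (G : Finset ι) (A : Finset α) (ha : ∀ z ∈ G, a z ∈ A)
    (hc : ∀ z ∈ G, c z ∈ A) : G.card ^ 4 ≤ A.card ^ 4 * (cyc a c G).card := by
  have h1 := card_sq_le_coll c G A hc
  have h2 := card_sq_le_coll (fun p : ι × ι => (a p.1, a p.2)) (coll c G) (A ×ˢ A)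
    (fun p hp => mem_product.2 ⟨ha _ (mem_coll.1 hp).1, ha _ (mem_coll.1 hp).2.1⟩)
  rw [card_product] at h2
  calc G.card ^ 4 = (G.card ^ 2) ^ 2 := by ring
    _ ≤ (A.card * (coll c G).card) ^ 2 := by gcongr
    _ = A.card ^ 2 * (coll c G).card ^ 2 := by ring
    _ ≤ A.card ^ 2 * (A.card * A.card * (cyc a c G).card) := by gcongr; exact h2
    _ = _ := by ring

/-- all four colours are different -/
def Rb (b : ι → α) (q : (ι × ι) × (ι × ι)) : Prop :=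
  b q.1.1 ≠ b q.1.2 ∧ b q.1.1 ≠ b q.2.1 ∧ b q.1.1 ≠ b q.2.2 ∧ b q.1.2 ≠ b q.2.1 ∧
    b q.1.2 ≠ b q.2.2 ∧ b q.2.1 ≠ b q.2.2

instance (b : ι → α) : DecidablePred (Rb b) := fun q => by unfold Rb; infer_instance

lemma card_not_rb {Z G : Finset ι} {a b c : ι → α} (hL : Lin Z a b c) (hG : G ⊆ Z)
    (A R : Finset α) (ha : ∀ z ∈ G, a z ∈ A) (hb : ∀ z ∈ G, b z ∈ R) :
    ((cyc a c G).filter (fun q => ¬ Rb b q)).card ≤ 6 * (A.card * (R.card * R.card)) := by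
  have main : ∀ (Q : (ι × ι) × (ι × ι) → Prop) [DecidablePred Q] (u : (ι × ι) × (ι × ι) → ι),
      (∀ q ∈ cyc a c G, u q ∈ G) →
      (∀ q ∈ cyc a c G, ∀ q' ∈ cyc a c G, Q q → Q q' → q.1.1 = q'.1.1 → b (u q) = b (u q') →
        q = q') → ((cyc a c G).filter Q).card ≤ A.card * (R.card * R.card) := by
    intro Q _ u hu hinj
    rw [← card_product, ← card_product]
    refine card_le_card_of_injOn (fun q => (a q.1.1, b q.1.1, b (u q))) ?_ ?_
    · intro q hq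
      have hq' := (mem_filter.1 (mem_coe.1 hq)).1
      have := mem_cyc.1 hq'
      simp only [coe_product, Set.mem_prod, mem_coe]
      exact ⟨ha _ this.1, hb _ this.1, hb _ (hu q hq')⟩
    · intro q hq q' hq' he
      obtain ⟨h1, h2⟩ := mem_filter.1 (mem_coe.1 hq)
      obtain ⟨h3, h4⟩ := mem_filter.1 (mem_coe.1 hq')
      simp only [Prod.mk.injEq] at he
      exact hinj q h1 q' h3 h2 h4
        (hL.ab _ (hG (mem_cyc.1 h1).1) _ (hG (mem_cyc.1 h3).1) he.1 he.2.1) he.2.2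
  -- three colours determine a cycle
  have d124 : ∀ q ∈ cyc a c G, ∀ q' ∈ cyc a c G, q.1.1 = q'.1.1 → b q.1.2 = b q'.1.2 →
      b q.2.2 = b q'.2.2 → q = q' := by
    rintro ⟨⟨z1, z2⟩, z4, z3⟩ hq ⟨⟨y1, y2⟩, y4, y3⟩ hq' e1 e2 e3
    obtain ⟨m1, m2, m4, m3, c1, c2, a1, a2⟩ := mem_cyc.1 hq
    obtain ⟨n1, n2, n4, n3, c1', c2', a1', a2'⟩ := mem_cyc.1 hq'
    dsimp only at *
    subst e1
    have f2 : z2 = y2 := hL.bc _ (hG m2) _ (hG n2) e2 (c1.symm.trans c1')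
    subst f2
    have f3 : z3 = y3 := hL.ab _ (hG m3) _ (hG n3) (a2.symm.trans a2') e3
    subst f3
    have f4 : z4 = y4 := hL.ac _ (hG m4) _ (hG n4) (a1.symm.trans a1') (c2.trans c2'.symm)
    subst f4
    rfl
  have d123 : ∀ q ∈ cyc a c G, ∀ q' ∈ cyc a c G, q.1.1 = q'.1.1 → b q.1.2 = b q'.1.2 →
      b q.2.1 = b q'.2.1 → q = q' := by
    rintro ⟨⟨z1, z2⟩, z4, z3⟩ hq ⟨⟨y1, y2⟩, y4, y3⟩ hq' e1 e2 e3
    obtain ⟨m1, m2, m4, m3, c1, c2, a1, a2⟩ := mem_cyc.1 hq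
    obtain ⟨n1, n2, n4, n3, c1', c2', a1', a2'⟩ := mem_cyc.1 hq'
    dsimp only at *
    subst e1
    have f2 : z2 = y2 := hL.bc _ (hG m2) _ (hG n2) e2 (c1.symm.trans c1')
    subst f2
    have f4 : z4 = y4 := hL.ab _ (hG m4) _ (hG n4) (a1.symm.trans a1') e3
    subst f4
    have f3 : z3 = y3 := hL.ac _ (hG m3) _ (hG n3) (a2.symm.trans a2') (c2.symm.trans c2')
    subst f3
    rfl
  have d134 : ∀ q ∈ cyc a c G, ∀ q' ∈ cyc a c G, q.1.1 = q'.1.1 → b q.2.1 = b q'.2.1 →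
      b q.2.2 = b q'.2.2 → q = q' := by
    rintro ⟨⟨z1, z2⟩, z4, z3⟩ hq ⟨⟨y1, y2⟩, y4, y3⟩ hq' e1 e2 e3
    obtain ⟨m1, m2, m4, m3, c1, c2, a1, a2⟩ := mem_cyc.1 hq
    obtain ⟨n1, n2, n4, n3, c1', c2', a1', a2'⟩ := mem_cyc.1 hq'
    dsimp only at *
    subst e1
    have f4 : z4 = y4 := hL.ab _ (hG m4) _ (hG n4) (a1.symm.trans a1') e2
    subst f4
    have f3 : z3 = y3 := hL.bc _ (hG m3) _ (hG n3) e3 (c2.symm.trans c2')
    subst f3
    have f2 : z2 = y2 := hL.ac _ (hG m2) _ (hG n2) (a2.trans a2'.symm) (c1.symm.trans c1')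
    subst f2
    rfl
  have g12 : ∀ q ∈ cyc a c G, q.1.2 ∈ G := fun q hq => (mem_cyc.1 hq).2.1
  have g21 : ∀ q ∈ cyc a c G, q.2.1 ∈ G := fun q hq => (mem_cyc.1 hq).2.2.1
  have k1 := main (fun q => b q.1.1 = b q.1.2) (fun q => q.2.1) g21
    (fun q hq q' hq' h h' e1 e2 => d123 q hq q' hq' e1 (by rw [← h, ← h', e1]) e2)
  have k2 := main (fun q => b q.1.1 = b q.2.1) (fun q => q.1.2) g12
    (fun q hq q' hq' h h' e1 e2 => d123 q hq q' hq' e1 e2 (by rw [← h, ← h', e1]))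
  have k3 := main (fun q => b q.1.1 = b q.2.2) (fun q => q.1.2) g12
    (fun q hq q' hq' h h' e1 e2 => d124 q hq q' hq' e1 e2 (by rw [← h, ← h', e1]))
  have k4 := main (fun q => b q.1.2 = b q.2.1) (fun q => q.1.2) g12
    (fun q hq q' hq' h h' e1 e2 => d123 q hq q' hq' e1 e2 (by rw [← h, ← h', e2]))
  have k5 := main (fun q => b q.1.2 = b q.2.2) (fun q => q.1.2) g12
    (fun q hq q' hq' h h' e1 e2 => d124 q hq q' hq' e1 e2 (by rw [← h, ← h', e2]))
  have k6 := main (fun q => b q.2.1 = b q.2.2) (fun q => q.2.1) g21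
    (fun q hq q' hq' h h' e1 e2 => d134 q hq q' hq' e1 e2 (by rw [← h, ← h', e2]))
  have sub : (cyc a c G).filter (fun q => ¬ Rb b q) ⊆
      (cyc a c G).filter (fun q => b q.1.1 = b q.1.2) ∪
      ((cyc a c G).filter (fun q => b q.1.1 = b q.2.1) ∪
      ((cyc a c G).filter (fun q => b q.1.1 = b q.2.2) ∪
      ((cyc a c G).filter (fun q => b q.1.2 = b q.2.1) ∪
      ((cyc a c G).filter (fun q => b q.1.2 = b q.2.2) ∪
      (cyc a c G).filter (fun q => b q.2.1 = b q.2.2))))) := by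
    intro q hq
    obtain ⟨h1, h2⟩ := mem_filter.1 hq
    simp only [mem_union, mem_filter, h1, true_and]
    unfold Rb at h2
    tauto
  refine (card_le_card sub).trans ?_
  refine (card_union_le _ _).trans ?_
  refine (Nat.add_le_add_left (card_union_le _ _) _).trans ?_
  refine (Nat.add_le_add_left (Nat.add_le_add_left (card_union_le _ _) _) _).trans ?_
  refine (Nat.add_le_add_left (Nat.add_le_add_left (Nat.add_le_add_left
    (card_union_le _ _) _) _) _).trans ?_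
  refine (Nat.add_le_add_left (Nat.add_le_add_left (Nat.add_le_add_left (Nat.add_le_add_left
    (card_union_le _ _) _) _) _) _).trans ?_
  omega

/-- many rainbow cycles give the configuration -/
lemma config_of_cycles {Z : Finset ι} {a b c : ι → α} (hL : Lin Z a b c) (P R : Finset α)
    (haP : ∀ z ∈ Z, a z ∈ P) (hbP : ∀ z ∈ Z, b z ∈ P) (hcP : ∀ z ∈ Z, c z ∈ P)
    (C : Finset ((ι × ι) × (ι × ι))) (hC : C ⊆ cyc a c (Z.filter (fun z => b z ∈ R)))
    (hrb : ∀ q ∈ C, Rb b q) (t e : ℕ) (he : e / 4 + 1 = t) (ht : R.card ^ 4 * t < C.card) :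
    ∃ L ⊆ Z, ∃ V ⊆ P, V.card ≤ e + (if 4 ∣ e then 4 else 5) ∧ e ≤ L.card ∧
      ∀ z ∈ L, a z ∈ V ∧ b z ∈ V ∧ c z ∈ V := by
  have hm : ∀ q ∈ C, (q.1.1 ∈ Z ∧ b q.1.1 ∈ R) ∧ (q.1.2 ∈ Z ∧ b q.1.2 ∈ R) ∧
      (q.2.1 ∈ Z ∧ b q.2.1 ∈ R) ∧ (q.2.2 ∈ Z ∧ b q.2.2 ∈ R) ∧ c q.1.1 = c q.1.2 ∧
      c q.2.1 = c q.2.2 ∧ a q.1.1 = a q.2.1 ∧ a q.1.2 = a q.2.2 := by
    intro q hq
    have := mem_cyc.1 (hC hq)
    simpa only [mem_filter] using this
  obtain ⟨y, -, hy⟩ := exists_lt_card_fiber_of_mul_lt_card_of_maps_to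
    (s := C) (t := (R ×ˢ R) ×ˢ (R ×ˢ R))
    (f := fun q => ((b q.1.1, b q.1.2), (b q.2.1, b q.2.2))) (n := t)
    (fun q hq => by
      obtain ⟨h1, h2, h3, h4, -⟩ := hm q hq
      simp only [mem_product]
      exact ⟨⟨h1.2, h2.2⟩, h3.2, h4.2⟩)
    (by
      simp only [card_product]
      calc _ = R.card ^ 4 * t := by ring
        _ < _ := ht)
  obtain ⟨S, hS, hSc⟩ := exists_subset_card_eq hy.le
  have hy0 : (C.filter (fun q => ((b q.1.1, b q.1.2), (b q.2.1, b q.2.2)) = y)).Nonempty :=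
    card_pos.1 (by omega)
  obtain ⟨q0, hq0⟩ := hy0
  obtain ⟨hq0C, hq0y⟩ := mem_filter.1 hq0
  obtain ⟨r1, r2, r3, r4, r5, r6⟩ := hrb q0 hq0C
  have hS' : ∀ q ∈ S, q ∈ C ∧ b q.1.1 = b q0.1.1 ∧ b q.1.2 = b q0.1.2 ∧ b q.2.1 = b q0.2.1 ∧
      b q.2.2 = b q0.2.2 := by
    intro q hq
    obtain ⟨h1, h2⟩ := mem_filter.1 (hS hq)
    rw [← hq0y] at h2
    simp only [Prod.mk.injEq] at h2
    exact ⟨h1, h2.1.1, h2.1.2, h2.2.1, h2.2.2⟩
  have inj : ∀ q ∈ S, ∀ q' ∈ S,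
      (q.1.1 = q'.1.1 ∨ q.1.2 = q'.1.2 ∨ q.2.1 = q'.2.1 ∨ q.2.2 = q'.2.2) → q = q' := by
    rintro ⟨⟨z1, z2⟩, z4, z3⟩ hq ⟨⟨y1, y2⟩, y4, y3⟩ hq' e
    obtain ⟨hq1, b1, b2, b4, b3⟩ := hS' _ hq
    obtain ⟨hq1', b1', b2', b4', b3'⟩ := hS' _ hq'
    obtain ⟨⟨m1, -⟩, ⟨m2, -⟩, ⟨m4, -⟩, ⟨m3, -⟩, c1, c2, a1, a2⟩ := hm _ hq1
    obtain ⟨⟨n1, -⟩, ⟨n2, -⟩, ⟨n4, -⟩, ⟨n3, -⟩, c1', c2', a1', a2'⟩ := hm _ hq1'
    dsimp only at *
    have s12 : z1 = y1 → z2 = y2 := fun h =>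
      hL.bc _ m2 _ n2 (b2.trans b2'.symm) (by rw [← c1, ← c1', h])
    have s23 : z2 = y2 → z3 = y3 := fun h =>
      hL.ab _ m3 _ n3 (by rw [← a2, ← a2', h]) (b3.trans b3'.symm)
    have s34 : z3 = y3 → z4 = y4 := fun h =>
      hL.bc _ m4 _ n4 (b4.trans b4'.symm) (by rw [c2, c2', h])
    have s41 : z4 = y4 → z1 = y1 := fun h =>
      hL.ab _ m1 _ n1 (by rw [a1, a1', h]) (b1.trans b1'.symm)
    have : z1 = y1 := by tauto
    have f2 := s12 this
    have f3 := s23 f2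
    have f4 := s34 f3
    rw [this, f2, f3, f4]
  obtain ⟨S1, hS1, c1⟩ := exists_subset_card_eq (s := S) (n := (e + 3) / 4) (by omega)
  obtain ⟨S2, hS2, c2⟩ := exists_subset_card_eq (s := S1) (n := (e + 2) / 4) (by omega)
  obtain ⟨S3, hS3, c3⟩ := exists_subset_card_eq (s := S2) (n := (e + 1) / 4) (by omega)
  obtain ⟨S4, hS4, c4⟩ := exists_subset_card_eq (s := S3) (n := e / 4) (by omega)
  have t2 : S2 ⊆ S := hS2.trans hS1
  have t3 : S3 ⊆ S := hS3.trans t2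
  have t4 : S4 ⊆ S := hS4.trans t3
  refine ⟨S1.image (fun q => q.1.1) ∪ (S2.image (fun q => q.1.2) ∪
      (S4.image (fun q => q.2.1) ∪ S3.image (fun q => q.2.2))), ?_,
    {b q0.1.1, b q0.1.2, b q0.2.1, b q0.2.2} ∪ (S1.image (fun q => a q.1.1) ∪
      (S2.image (fun q => a q.1.2) ∪ (S1.image (fun q => c q.1.1) ∪
        S3.image (fun q => c q.2.1)))), ?_, ?_, ?_, ?_⟩
  · intro z hz
    simp only [mem_union, mem_image] at hz
    rcases hz with ⟨q, hq, rfl⟩ | ⟨q, hq, rfl⟩ | ⟨q, hq, rfl⟩ | ⟨q, hq, rfl⟩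
    · exact (hm q (hS' q (hS1 hq)).1).1.1
    · exact (hm q (hS' q (t2 hq)).1).2.1.1
    · exact (hm q (hS' q (t4 hq)).1).2.2.1.1
    · exact (hm q (hS' q (t3 hq)).1).2.2.2.1.1
  · intro p hp
    simp only [mem_union, mem_image, mem_insert, mem_singleton] at hp
    have h0 := hm q0 hq0C
    rcases hp with (rfl | rfl | rfl | rfl) | ⟨q, hq, rfl⟩ | ⟨q, hq, rfl⟩ | ⟨q, hq, rfl⟩ |
      ⟨q, hq, rfl⟩
    · exact hbP _ h0.1.1
    · exact hbP _ h0.2.1.1
    · exact hbP _ h0.2.2.1.1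
    · exact hbP _ h0.2.2.2.1.1
    · exact haP _ (hm q (hS' q (hS1 hq)).1).1.1
    · exact haP _ (hm q (hS' q (t2 hq)).1).2.1.1
    · exact hcP _ (hm q (hS' q (hS1 hq)).1).1.1
    · exact hcP _ (hm q (hS' q (t3 hq)).1).2.2.1.1
  · have i1 : (S1.image (fun q => a q.1.1)).card ≤ (e + 3) / 4 := card_image_le.trans c1.le
    have i2 : (S2.image (fun q => a q.1.2)).card ≤ (e + 2) / 4 := card_image_le.trans c2.le
    have i3 : (S1.image (fun q => c q.1.1)).card ≤ (e + 3) / 4 := card_image_le.trans c1.le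
    have i4 : (S3.image (fun q => c q.2.1)).card ≤ (e + 1) / 4 := card_image_le.trans c3.le
    have i0 : ({b q0.1.1, b q0.1.2, b q0.2.1, b q0.2.2} : Finset α).card ≤ 4 := card_le_four
    refine (card_union_le _ _).trans ?_
    refine (Nat.add_le_add_left (card_union_le _ _) _).trans ?_
    refine (Nat.add_le_add_left (Nat.add_le_add_left (card_union_le _ _) _) _).trans ?_
    refine (Nat.add_le_add_left (Nat.add_le_add_left (Nat.add_le_add_left
      (card_union_le _ _) _) _) _).trans ?_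
    split_ifs <;> omega
  · have i1 : (S1.image (fun q => q.1.1)).card = (e + 3) / 4 := by
      rw [card_image_of_injOn
        (fun q hq q' hq' e => inj q (hS1 hq) q' (hS1 hq') (Or.inl e)), c1]
    have i2 : (S2.image (fun q => q.1.2)).card = (e + 2) / 4 := by
      rw [card_image_of_injOn
        (fun q hq q' hq' e => inj q (t2 hq) q' (t2 hq') (Or.inr (Or.inl e))), c2]
    have i3 : (S4.image (fun q => q.2.1)).card = e / 4 := by
      rw [card_image_of_injOn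
        (fun q hq q' hq' e => inj q (t4 hq) q' (t4 hq') (Or.inr (Or.inr (Or.inl e)))), c4]
    have i4 : (S3.image (fun q => q.2.2)).card = (e + 1) / 4 := by
      rw [card_image_of_injOn
        (fun q hq q' hq' e => inj q (t3 hq) q' (t3 hq') (Or.inr (Or.inr (Or.inr e)))), c3]
    have j1 : ∀ z ∈ S1.image (fun q => q.1.1), b z = b q0.1.1 := by
      intro z hz; obtain ⟨q, hq, rfl⟩ := mem_image.1 hz; exact (hS' q (hS1 hq)).2.1
    have j2 : ∀ z ∈ S2.image (fun q => q.1.2), b z = b q0.1.2 := by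
      intro z hz; obtain ⟨q, hq, rfl⟩ := mem_image.1 hz; exact (hS' q (t2 hq)).2.2.1
    have j3 : ∀ z ∈ S4.image (fun q => q.2.1), b z = b q0.2.1 := by
      intro z hz; obtain ⟨q, hq, rfl⟩ := mem_image.1 hz; exact (hS' q (t4 hq)).2.2.2.1
    have j4 : ∀ z ∈ S3.image (fun q => q.2.2), b z = b q0.2.2 := by
      intro z hz; obtain ⟨q, hq, rfl⟩ := mem_image.1 hz; exact (hS' q (t3 hq)).2.2.2.2
    rw [card_union_of_disjoint, card_union_of_disjoint, card_union_of_disjoint]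
    · omega
    · rw [disjoint_left]; intro z h1 h2
      exact r6 ((j3 z h1).symm.trans (j4 z h2))
    · rw [disjoint_left]; intro z h1 h2
      rcases mem_union.1 h2 with h2 | h2
      · exact r4 ((j2 z h1).symm.trans (j3 z h2))
      · exact r5 ((j2 z h1).symm.trans (j4 z h2))
    · rw [disjoint_left]; intro z h1 h2
      rcases mem_union.1 h2 with h2 | h2
      · exact r1 ((j1 z h1).symm.trans (j2 z h2))
      rcases mem_union.1 h2 with h2 | h2
      · exact r2 ((j1 z h1).symm.trans (j3 z h2))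
      · exact r3 ((j1 z h1).symm.trans (j4 z h2))
  · intro z hz
    simp only [mem_union, mem_image, mem_insert, mem_singleton] at hz ⊢
    rcases hz with ⟨q, hq, rfl⟩ | ⟨q, hq, rfl⟩ | ⟨q, hq, rfl⟩ | ⟨q, hq, rfl⟩
    · obtain ⟨h0, b1, b2, b4, b3⟩ := hS' q (hS1 hq)
      exact ⟨Or.inr (Or.inl ⟨q, hq, rfl⟩), Or.inl (Or.inl b1),
        Or.inr (Or.inr (Or.inr (Or.inl ⟨q, hq, rfl⟩)))⟩
    · obtain ⟨h0, b1, b2, b4, b3⟩ := hS' q (t2 hq)
      exact ⟨Or.inr (Or.inr (Or.inl ⟨q, hq, rfl⟩)), Or.inl (Or.inr (Or.inl b2)),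
        Or.inr (Or.inr (Or.inr (Or.inl ⟨q, hS2 hq, (hm q h0).2.2.2.2.1⟩)))⟩
    · obtain ⟨h0, b1, b2, b4, b3⟩ := hS' q (t4 hq)
      exact ⟨Or.inr (Or.inl ⟨q, hS2 (hS3 (hS4 hq)), (hm q h0).2.2.2.2.2.2.1⟩),
        Or.inl (Or.inr (Or.inr (Or.inl b4))),
        Or.inr (Or.inr (Or.inr (Or.inr ⟨q, hS4 hq, rfl⟩)))⟩
    · obtain ⟨h0, b1, b2, b4, b3⟩ := hS' q (t3 hq)
      exact ⟨Or.inr (Or.inr (Or.inl ⟨q, hS3 hq, (hm q h0).2.2.2.2.2.2.2⟩)),
        Or.inl (Or.inr (Or.inr (Or.inr b3))),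
        Or.inr (Or.inr (Or.inr (Or.inr ⟨q, hq, (hm q h0).2.2.2.2.2.1⟩)))⟩

end cycles

end Pool.Agent.MP_38296a_co
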