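import Pool.Agent.MP_38296a_co.Sweep

set_option autoImplicit false
set_option linter.unusedSectionVars false

namespace Pool.Agent.MP_38296a_co

open Finset

abbrev Pt := EuclideanSpace ℝ (Fin 2)

lemma exists_enum (S : Finset ℝ) :
    ∃ σ : ℕ → ℝ, ∃ T : ℕ, Monotone σ ∧ ∀ s ∈ S, ∃ j < T, σ j = s := by
  induction S using Finset.induction_on_max with
  | empty => exact ⟨fun _ => 0, 0, monotone_const, by simp⟩
  | insert a S ha ih =>
    obtain ⟨σ, T, hσ, hS⟩ := ih
    refine ⟨fun j => if j < T then min (σ j) a else a, T + 1, ?_, ?_⟩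
    · intro i j hij
      dsimp only
      split_ifs with h1 h2 h2
      · exact min_le_min_right _ (hσ hij)
      · exact min_le_right _ _
      · omega
      · exact le_rfl
    · intro s hs
      rcases mem_insert.1 hs with rfl | hs
      · exact ⟨T, by omega, by simp⟩
      · obtain ⟨j, hj, rfl⟩ := hS s hs
        exact ⟨j, by omega, by simp [hj, (ha _ hs).le]⟩

lemma win_bound {α : Type*} [DecidableEq α] (P : Finset α) (h : α → ℝ) (k : ℕ)
    (hk : ∀ y, (P.filter (fun p => h p = y)).card ≤ k) (x L : ℕ) :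
    (P.filter (fun p => x ≤ (P.filter (fun q => h q < h p)).card ∧
      (P.filter (fun q => h q < h p)).card < x + L)).card ≤ L + k := by
  set W := P.filter (fun p => x ≤ (P.filter (fun q => h q < h p)).card ∧
      (P.filter (fun q => h q < h p)).card < x + L) with hW
  rcases W.eq_empty_or_nonempty with h0 | h0
  · simp [h0]
  obtain ⟨p0, hp0, hmin⟩ := exists_min_image W h h0
  obtain ⟨p1, hp1, hmax⟩ := exists_max_image W h h0
  have e0 := (mem_filter.1 hp0).2.1
  have e1 := (mem_filter.1 hp1).2.2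
  have sub : W ⊆ (P.filter (fun q => h q < h p1) \ P.filter (fun q => h q < h p0)) ∪
      P.filter (fun p => h p = h p1) := by
    intro p hp
    have hP := (mem_filter.1 hp).1
    rcases (hmax p hp).lt_or_eq with h1 | h1
    · refine mem_union_left _ (mem_sdiff.2 ⟨mem_filter.2 ⟨hP, h1⟩, fun h2 => ?_⟩)
      exact absurd (mem_filter.1 h2).2 (not_lt.2 (hmin p hp))
    · exact mem_union_right _ (mem_filter.2 ⟨hP, h1⟩)
  have sub2 : P.filter (fun q => h q < h p0) ⊆ P.filter (fun q => h q < h p1) := by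
    intro q hq
    exact mem_filter.2 ⟨(mem_filter.1 hq).1, (mem_filter.1 hq).2.trans_le (hmin p1 hp1)⟩
  have := (card_le_card sub).trans (card_union_le _ _)
  rw [card_sdiff_of_subset sub2] at this
  have := hk (h p1)
  omega

/-- height of a point above the lines of slope `s` -/
def ht (s : ℝ) (p : Pt) : ℝ := p 1 - s * p 0

open Classical in
/-- rank in direction `s` -/
noncomputable def rk (P : Finset Pt) (s : ℝ) (p : Pt) : ℕ :=
  (P.filter (fun q => ht s q < ht s p)).card

lemma card_change (P : Finset Pt) (σ : ℕ → ℝ) (hσ : Monotone σ) (p : Pt) (T N : ℕ) :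
    ∑ j ∈ range T, ((range N).filter
      (fun u => ¬ (u < rk P (σ j) p ↔ u < rk P (σ (j + 1)) p))).card ≤ 2 * P.card := by
  classical
  set U : ℕ → ℕ := fun j => (P.filter (fun q => ht (σ j) q < ht (σ j) p ∧ p 0 ≤ q 0)).card
  set D : ℕ → ℕ := fun j => (P.filter (fun q => ht (σ j) q < ht (σ j) p ∧ ¬ p 0 ≤ q 0)).card
  have hr : ∀ j, rk P (σ j) p = U j + D j := fun j => by
    simp only [U, D, rk, ← filter_filter]
    rw [card_filter_add_card_filter_not]
  have hU : ∀ j, U j ≤ U (j + 1) := fun j => card_le_card fun q hq => by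
    obtain ⟨h1, h2, h3⟩ := mem_filter.1 hq
    refine mem_filter.2 ⟨h1, ?_, h3⟩
    have := hσ (Nat.le_succ j)
    unfold ht at *
    nlinarith
  have hD : ∀ j, D (j + 1) ≤ D j := fun j => card_le_card fun q hq => by
    obtain ⟨h1, h2, h3⟩ := mem_filter.1 hq
    refine mem_filter.2 ⟨h1, ?_, h3⟩
    have := hσ (Nat.le_succ j)
    have h3' := not_le.1 h3
    unfold ht at *
    nlinarith
  have step : ∀ j, ((range N).filter
      (fun u => ¬ (u < rk P (σ j) p ↔ u < rk P (σ (j + 1)) p))).card + U j + D (j + 1) ≤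
      U (j + 1) + D j := fun j => by
    have : (range N).filter (fun u => ¬ (u < rk P (σ j) p ↔ u < rk P (σ (j + 1)) p)) ⊆
        Ico (U j + D (j + 1)) (U (j + 1) + D j) := by
      intro u hu
      have h1 := (mem_filter.1 hu).2
      rw [hr, hr] at h1
      have := hU j
      have := hD j
      rw [mem_Ico]
      omega
    have h2 := card_le_card this
    rw [Nat.card_Ico] at h2
    have := hU j
    have := hD j
    omega
  have main : ∀ T, ∑ j ∈ range T, ((range N).filter
      (fun u => ¬ (u < rk P (σ j) p ↔ u < rk P (σ (j + 1)) p))).card + U 0 + D T ≤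
      U T + D 0 := by
    intro T
    induction T with
    | zero => simp
    | succ T ih =>
      rw [sum_range_succ]
      have := step T
      omega
  have := main T
  have h1 : U T ≤ P.card := card_filter_le _ _
  have h2 : D 0 ≤ P.card := card_filter_le _ _
  omega

open Classical in
/-- points on the non-vertical line `l` -/
noncomputable def on (P : Finset Pt) (l : ℝ × ℝ) : Finset Pt := P.filter (fun p => ht l.1 p = l.2)

lemma line_eq {p q : Pt} (hne : p ≠ q) {l l' : ℝ × ℝ} (h1 : ht l.1 p = l.2) (h2 : ht l.1 q = l.2)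
    (h3 : ht l'.1 p = l'.2) (h4 : ht l'.1 q = l'.2) : l = l' := by
  unfold ht at *
  have hx : p 0 ≠ q 0 := by
    intro hx
    apply hne
    ext i
    fin_cases i
    · exact hx
    · simp only [Fin.mk_one]
      rw [hx] at h1
      linarith
  have hs : l.1 = l'.1 := by
    have : (l.1 - l'.1) * (p 0 - q 0) = 0 := by linarith
    rcases mul_eq_zero.1 this with h | h
    · linarith
    · exact absurd (by linarith) hx
  refine Prod.ext hs ?_
  rw [← h1, ← h3, hs]

lemma col_line (s : Set Pt) (l : ℝ × ℝ) (h : ∀ p ∈ s, ht l.1 p = l.2) : Collinear ℝ s := by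
  rw [collinear_iff_exists_forall_eq_smul_vadd]
  refine ⟨!₂[0, l.2], !₂[1, l.1], fun p hp => ⟨p 0, ?_⟩⟩
  have := h p hp
  unfold ht at this
  ext i
  fin_cases i
  · simp
  · simp
    linarith

lemma col_vert (s : Set Pt) (x : ℝ) (h : ∀ p ∈ s, p 0 = x) : Collinear ℝ s := by
  rw [collinear_iff_exists_forall_eq_smul_vadd]
  refine ⟨!₂[x, 0], !₂[0, 1], fun p hp => ⟨p 1, ?_⟩⟩
  have := h p hp
  ext i
  fin_cases i
  · simp [this]
  · simp

lemma col_cases {s : Set Pt} (h : Collinear ℝ s) :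
    (∃ x, ∀ p ∈ s, p 0 = x) ∨ ∃ l : ℝ × ℝ, ∀ p ∈ s, ht l.1 p = l.2 := by
  rw [collinear_iff_exists_forall_eq_smul_vadd] at h
  obtain ⟨p0, v, h⟩ := h
  by_cases hv : v 0 = 0
  · refine Or.inl ⟨p0 0, fun p hp => ?_⟩
    obtain ⟨r, rfl⟩ := h p hp
    simp [hv]
  · refine Or.inr ⟨(v 1 / v 0, p0 1 - v 1 / v 0 * p0 0), fun p hp => ?_⟩
    obtain ⟨r, rfl⟩ := h p hp
    simp only [ht, vadd_eq_add, PiLp.add_apply, PiLp.smul_apply, smul_eq_mul]
    field_simp
    ring

open Classical in
/-- collinear triples -/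
noncomputable def tri (P : Finset Pt) : Finset (Finset Pt) :=
  (P.powersetCard 3).filter (fun t => Collinear ℝ (t : Set Pt))

lemma ncard_tri (P : Finset Pt) :
    {t : Finset Pt | t ⊆ P ∧ t.card = 3 ∧ Collinear ℝ (t : Set Pt)}.ncard = (tri P).card := by
  rw [← Set.ncard_coe_finset]
  congr 1
  ext t
  simp [tri, and_assoc]

lemma exists_lines (P : Finset Pt) (k : ℕ) (h1 : ∀ l, (on P l).card ≤ k)
    (h2 : ∀ x : ℝ, (P.filter (fun p => p 0 = x)).card ≤ k) :
    ∃ Z : Finset (ℝ × ℝ), (∀ l ∈ Z, 2 < (on P l).card) ∧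
      (tri P).card ≤ (Z.card + P.card) * k ^ 3 := by
  classical
  let f : Finset Pt → ℝ × ℝ := fun t =>
    if h : ∃ l : ℝ × ℝ, ∀ p ∈ t, ht l.1 p = l.2 then h.choose else (0, 0)
  set Z := ((tri P).image f).filter (fun l => 2 < (on P l).card)
  refine ⟨Z, fun l hl => (mem_filter.1 hl).2, ?_⟩
  have sub : tri P ⊆ Z.biUnion (fun l => (on P l).powersetCard 3) ∪
      P.biUnion (fun p => (P.filter (fun q => q 0 = p 0)).powersetCard 3) := by
    intro t ht'
    obtain ⟨ha, hb⟩ := mem_filter.1 ht'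
    obtain ⟨hc, hd⟩ := mem_powersetCard.1 ha
    rcases col_cases hb with ⟨x, hx⟩ | hl
    · obtain ⟨p, hp⟩ : t.Nonempty := card_pos.1 (by omega)
      refine mem_union_right _ (mem_biUnion.2 ⟨p, hc hp, mem_powersetCard.2 ⟨fun q hq => ?_, hd⟩⟩)
      exact mem_filter.2 ⟨hc hq, (hx q hq).trans (hx p hp).symm⟩
    · have hl' : ∃ l : ℝ × ℝ, ∀ p ∈ t, ht l.1 p = l.2 := hl
      have hf : ∀ p ∈ t, ht (f t).1 p = (f t).2 := by
        simp only [f, dif_pos hl']
        exact hl'.choose_spec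
      have hs : t ⊆ on P (f t) := fun q hq => mem_filter.2 ⟨hc hq, hf q hq⟩
      refine mem_union_left _ (mem_biUnion.2 ⟨f t, mem_filter.2 ⟨mem_image_of_mem _ ht', ?_⟩,
        mem_powersetCard.2 ⟨hs, hd⟩⟩)
      have := card_le_card hs
      omega
  have b1 : ∀ s : Finset Pt, s.card ≤ k → (s.powersetCard 3).card ≤ k ^ 3 := fun s hs => by
    rw [card_powersetCard]
    exact (Nat.choose_le_pow _ _).trans (Nat.pow_le_pow_left hs 3)
  refine (card_le_card sub).trans ((card_union_le _ _).trans ?_)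
  rw [add_mul]
  exact add_le_add (card_biUnion_le_card_mul _ _ _ fun l _ => b1 _ (h1 l))
    (card_biUnion_le_card_mul _ _ _ fun p _ => b1 _ (h2 _))

theorem no_rich (e k : ℕ) {δ : ℝ} (hδ : 0 < δ) : ∃ n0 : ℕ, ∀ P : Finset Pt, n0 ≤ P.card →
    (∀ l, (on P l).card ≤ k) → ∀ Z : Finset (ℝ × ℝ), (∀ l ∈ Z, 2 < (on P l).card) →
    δ * (P.card : ℝ) ^ 2 ≤ Z.card →
    ∃ V ⊆ P, V.card ≤ e + (if 4 ∣ e then 4 else 5) ∧ e ≤ (tri V).card := by
  classical
  obtain ⟨n0, hn0⟩ := core e k hδ
  refine ⟨n0, fun P hP hk Z hZ hc => ?_⟩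
  have hex : ∀ l : ℝ × ℝ, ∃ a b c : Pt, l ∈ Z →
      a ∈ on P l ∧ b ∈ on P l ∧ c ∈ on P l ∧ a ≠ b ∧ a ≠ c ∧ b ≠ c := by
    intro l
    by_cases hl : l ∈ Z
    · obtain ⟨a, b, c, h⟩ := two_lt_card_iff.1 (hZ l hl)
      exact ⟨a, b, c, fun _ => h⟩
    · exact ⟨0, 0, 0, fun h => absurd h hl⟩
  choose a b c habc using hex
  obtain ⟨σ, T, hσ, hT⟩ := exists_enum (Z.image Prod.fst)
  have hex2 : ∀ l : ℝ × ℝ, ∃ j, l ∈ Z → j < T ∧ σ j = l.1 := by
    intro l
    by_cases hl : l ∈ Z
    · obtain ⟨j, h⟩ := hT l.1 (mem_image_of_mem _ hl)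
      exact ⟨j, fun _ => h⟩
    · exact ⟨0, fun h => absurd h hl⟩
  choose τ hτ using hex2
  have hon : ∀ {l p}, p ∈ on P l → p ∈ P ∧ ht l.1 p = l.2 := fun h => mem_filter.1 h
  have hrk : ∀ l ∈ Z, ∀ p ∈ on P l,
      rk P (σ (τ l)) p = (P.filter (fun q => ht l.1 q < l.2)).card := by
    intro l hl p hp
    rw [(hτ l hl).2, rk, (hon hp).2]
  let S : Sweep Pt (ℝ × ℝ) :=
    { P := P
      Z := Z
      a := a
      b := b
      c := c
      tm := τ
      loc := fun l => (P.filter (fun q => ht l.1 q < l.2)).card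
      r := fun j p => rk P (σ j) p
      E := (P ×ˢ range T ×ˢ range P.card).filter
        (fun e => ¬ (e.2.2 < rk P (σ e.2.1) e.1 ↔ e.2.2 < rk P (σ (e.2.1 + 1)) e.1))
      n := P.card
      k := k
      lin :=
        { ab := fun z hz z' hz' e1 e2 => line_eq (habc z hz).2.2.2.1
            (hon (habc z hz).1).2 (hon (habc z hz).2.1).2
            (e1 ▸ (hon (habc z' hz').1).2) (e2 ▸ (hon (habc z' hz').2.1).2)
          ac := fun z hz z' hz' e1 e2 => line_eq (habc z hz).2.2.2.2.1
            (hon (habc z hz).1).2 (hon (habc z hz).2.2.1).2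
            (e1 ▸ (hon (habc z' hz').1).2) (e2 ▸ (hon (habc z' hz').2.2.1).2)
          bc := fun z hz z' hz' e1 e2 => line_eq (habc z hz).2.2.2.2.2
            (hon (habc z hz).2.1).2 (hon (habc z hz).2.2.1).2
            (e1 ▸ (hon (habc z' hz').2.1).2) (e2 ▸ (hon (habc z' hz').2.2.1).2) }
      haP := fun z hz => (hon (habc z hz).1).1
      hbP := fun z hz => (hon (habc z hz).2.1).1
      hcP := fun z hz => (hon (habc z hz).2.2.1).1
      ra := fun z hz => hrk z hz _ (habc z hz).1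
      rb := fun z hz => hrk z hz _ (habc z hz).2.1
      rc := fun z hz => hrk z hz _ (habc z hz).2.2.1
      loc_le := fun z _ => card_filter_le _ _
      win := fun j x L => win_bound P (ht (σ j)) k (fun y => hk (σ j, y)) x L
      sep := by
        intro p hp z hz i hi u hu
        have hu' : u < P.card := by
          have e1 : rk P (σ i) p ≤ P.card := card_filter_le _ _
          have e2 : rk P (σ (τ z)) p ≤ P.card := card_filter_le _ _
          omega
        have hT' := (hτ z hz).1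
        by_contra hcon
        have : ∀ j, i ≤ j → j ≤ τ z → (u < rk P (σ i) p ↔ u < rk P (σ j) p) := by
          intro j hj
          induction j, hj using Nat.le_induction with
          | base => exact fun _ => Iff.rfl
          | succ j hj ih =>
            intro h
            refine (ih (by omega)).trans ?_
            by_contra h'
            refine hcon ⟨j, hj, by omega, mem_filter.2 ⟨?_, h'⟩⟩
            simp only [mem_product, mem_range]
            exact ⟨hp, by omega, hu'⟩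
        exact hu (this _ hi le_rfl)
      cardE := by
        rw [card_filter, sum_product]
        calc _ ≤ ∑ _p ∈ P, 2 * P.card := by
              refine sum_le_sum fun p _ => ?_
              rw [sum_product]
              refine le_trans (le_of_eq ?_) (card_change P σ hσ p T P.card)
              refine sum_congr rfl fun j _ => ?_
              rw [card_filter]
          _ = _ := by simp; ring }
  obtain ⟨Y, hY, V, hV, h1, h2, h3⟩ := hn0 S rfl hP hc
  refine ⟨V, hV, h1, h2.trans ?_⟩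
  refine card_le_card_of_injOn (fun z => {a z, b z, c z}) ?_ ?_
  · intro z hz
    have hz' : z ∈ Z := hY hz
    obtain ⟨q1, q2, q3, q4, q5, q6⟩ := habc z hz'
    obtain ⟨v1, v2, v3⟩ := h3 z hz
    refine mem_coe.2 (mem_filter.2 ⟨mem_powersetCard.2 ⟨?_, ?_⟩, col_line _ z ?_⟩)
    · intro p hp
      simp only [mem_insert, mem_singleton] at hp
      rcases hp with rfl | rfl | rfl <;> assumption
    · exact card_eq_three.2 ⟨_, _, _, q4, q5, q6, rfl⟩
    · intro p hp
      simp only [coe_insert, coe_singleton, Set.mem_insert_iff, Set.mem_singleton_iff] at hp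
      rcases hp with rfl | rfl | rfl
      · exact (hon q1).2
      · exact (hon q2).2
      · exact (hon q3).2
  · intro z hz z' hz' e
    obtain ⟨q1, q2, q3, q4, q5, q6⟩ := habc z (hY hz)
    obtain ⟨q1', q2', q3', -⟩ := habc z' (hY hz')
    have hm : ∀ p ∈ ({a z', b z', c z'} : Finset Pt), ht z'.1 p = z'.2 := by
      intro p hp
      simp only [mem_insert, mem_singleton] at hp
      rcases hp with rfl | rfl | rfl
      · exact (hon q1').2
      · exact (hon q2').2
      · exact (hon q3').2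
    have e' : ({a z, b z, c z} : Finset Pt) = {a z', b z', c z'} := e
    exact line_eq q4 (hon q1).2 (hon q2).2 (hm _ (e' ▸ by simp)) (hm _ (e' ▸ by simp))

lemma rich_case (e : ℕ) (W : Finset Pt) (hW : Collinear ℝ (W : Set Pt))
    (hc : e + 4 ≤ W.card) :
    ∃ V ⊆ W, V.card ≤ e + (if 4 ∣ e then 4 else 5) ∧ e ≤ (tri V).card := by
  classical
  obtain ⟨V, hV, hVc⟩ := exists_subset_card_eq hc
  refine ⟨V, hV, by split_ifs <;> omega, ?_⟩
  have : tri V = V.powersetCard 3 := by
    refine filter_true_of_mem fun s hs => hW.subset ?_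
    exact coe_subset.2 ((mem_powersetCard.1 hs).1.trans hV)
  rw [this, card_powersetCard, hVc]
  have e1 : (e + 3 + 1).choose (2 + 1) = (e + 3).choose 2 + (e + 3).choose (2 + 1) :=
    Nat.choose_succ_succ' _ _
  have e2 : (e + 2 + 1).choose (1 + 1) = (e + 2).choose 1 + (e + 2).choose (1 + 1) :=
    Nat.choose_succ_succ' _ _
  rw [Nat.choose_one_right] at e2
  have e3 : (e + 4).choose 3 = (e + 3 + 1).choose (2 + 1) := rfl
  have e4 : (e + 3).choose 2 = (e + 2 + 1).choose (1 + 1) := rfl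
  omega

theorem main (e : ℕ) {δ : ℝ} (hδ : 0 < δ) : ∃ n0 : ℕ, ∀ P : Finset Pt, n0 ≤ P.card →
    δ * (P.card : ℝ) ^ 2 ≤ (tri P).card →
    ∃ V ⊆ P, V.card ≤ e + (if 4 ∣ e then 4 else 5) ∧ e ≤ (tri V).card := by
  classical
  set k := e + 4 with hk
  have hk0 : (0 : ℝ) < k := by rw [hk]; positivity
  obtain ⟨n0, hn0⟩ := no_rich e k (δ := δ / (2 * (k : ℝ) ^ 3)) (by positivity)
  obtain ⟨n1, hn1⟩ := exists_nat_gt (2 * (k : ℝ) ^ 3 / δ)
  refine ⟨max n0 n1, fun P hP hT => ?_⟩
  by_cases h1 : ∀ l, (on P l).card ≤ k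
  swap
  · push Not at h1
    obtain ⟨l, hl⟩ := h1
    obtain ⟨V, hV, h⟩ := rich_case e (on P l)
      (col_line _ l fun p hp => (mem_filter.1 (mem_coe.1 hp)).2) hl.le
    exact ⟨V, hV.trans (filter_subset _ _), h⟩
  by_cases h2 : ∀ x : ℝ, (P.filter (fun p => p 0 = x)).card ≤ k
  swap
  · push Not at h2
    obtain ⟨x, hx⟩ := h2
    obtain ⟨V, hV, h⟩ := rich_case e _
      (col_vert _ x fun p hp => (mem_filter.1 (mem_coe.1 hp)).2) hx.le
    exact ⟨V, hV.trans (filter_subset _ _), h⟩
  obtain ⟨Z, hZ, hc⟩ := exists_lines P k h1 h2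
  refine hn0 P ((le_max_left _ _).trans hP) h1 Z hZ ?_
  have hc' : ((tri P).card : ℝ) ≤ (Z.card + P.card) * (k : ℝ) ^ 3 := by exact_mod_cast hc
  have hn : (n1 : ℝ) ≤ P.card := by exact_mod_cast (le_max_right _ _).trans hP
  rw [div_lt_iff₀ hδ] at hn1
  have hP0 : (0 : ℝ) ≤ P.card := by positivity
  have e1 : 2 * (k : ℝ) ^ 3 * P.card ≤ δ * (P.card : ℝ) ^ 2 := by
    have e0 : 2 * (k : ℝ) ^ 3 ≤ P.card * δ := hn1.le.trans (by gcongr)
    calc _ ≤ P.card * δ * P.card := mul_le_mul_of_nonneg_right e0 hP0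
      _ = _ := by ring
  rw [div_mul_eq_mul_div, div_le_iff₀ (by positivity)]
  nlinarith

end Pool.Agent.MP_38296a_co
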