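import Pool.Agent.MP_38296a_co.Cyc

set_option autoImplicit false
set_option linter.unusedSectionVars false

namespace Pool.Agent.MP_38296a_co

open Finset

/-- an abstract rotating sweep of a point set together with a linear triple system -/
structure Sweep (α ι : Type*) [DecidableEq α] [DecidableEq ι] where
  P : Finset α
  Z : Finset ι
  a : ι → α
  b : ι → α
  c : ι → α
  tm : ι → ℕ
  loc : ι → ℕ
  r : ℕ → α → ℕ
  E : Finset (α × ℕ × ℕ)
  n : ℕ
  k : ℕ
  lin : Lin Z a b c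
  haP : ∀ z ∈ Z, a z ∈ P
  hbP : ∀ z ∈ Z, b z ∈ P
  hcP : ∀ z ∈ Z, c z ∈ P
  ra : ∀ z ∈ Z, r (tm z) (a z) = loc z
  rb : ∀ z ∈ Z, r (tm z) (b z) = loc z
  rc : ∀ z ∈ Z, r (tm z) (c z) = loc z
  loc_le : ∀ z ∈ Z, loc z ≤ n
  win : ∀ j x L, (P.filter (fun p => x ≤ r j p ∧ r j p < x + L)).card ≤ L + k
  sep : ∀ p ∈ P, ∀ z ∈ Z, ∀ i ≤ tm z, ∀ u, ¬ (u < r i p ↔ u < r (tm z) p) →
    ∃ j, i ≤ j ∧ j < tm z ∧ (p, j, u) ∈ E
  cardE : E.card ≤ 2 * n ^ 2

namespace Sweep

variable {α ι : Type*} [DecidableEq α] [DecidableEq ι] (S : Sweep α ι)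

/-- events near window `w` at scale `M` -/
def ev (M w : ℕ) : Finset (α × ℕ × ℕ) :=
  S.E.filter (fun e => e.2.2 / M ≤ w + 1 ∧ w ≤ e.2.2 / M + 1)

/-- potential -/
def V (M w i : ℕ) : ℕ := ((S.ev M w).filter (fun e => e.2.1 < i)).card

def lab (M : ℕ) (z : ι) : ℕ × ℕ := (S.loc z / M, S.V M (S.loc z / M) (S.tm z) / M ^ 2)

def pts (M : ℕ) (l : ℕ × ℕ) : Finset α :=
  S.P.filter (fun p => ∃ z ∈ S.Z, S.lab M z = l ∧ S.r (S.tm z) p = S.loc z)

lemma V_mono (M w : ℕ) {i i' : ℕ} (h : i ≤ i') : S.V M w i ≤ S.V M w i' :=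
  card_le_card (fun e he => by
    obtain ⟨h1, h2⟩ := mem_filter.1 he
    exact mem_filter.2 ⟨h1, by omega⟩)

lemma V_le (M w i : ℕ) : S.V M w i ≤ (S.ev M w).card := card_filter_le _ _

lemma a_mem {M : ℕ} {z : ι} (hz : z ∈ S.Z) : S.a z ∈ S.pts M (S.lab M z) :=
  mem_filter.2 ⟨S.haP z hz, z, hz, rfl, S.ra z hz⟩

lemma b_mem {M : ℕ} {z : ι} (hz : z ∈ S.Z) : S.b z ∈ S.pts M (S.lab M z) :=
  mem_filter.2 ⟨S.hbP z hz, z, hz, rfl, S.rb z hz⟩

lemma c_mem {M : ℕ} {z : ι} (hz : z ∈ S.Z) : S.c z ∈ S.pts M (S.lab M z) :=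
  mem_filter.2 ⟨S.hcP z hz, z, hz, rfl, S.rc z hz⟩

lemma card_pts {M : ℕ} (hM : 0 < M) (l : ℕ × ℕ) : (S.pts M l).card ≤ 4 * M + S.k := by
  classical
  set C := S.Z.filter (fun z => S.lab M z = l) with hC
  rcases C.eq_empty_or_nonempty with h0 | h0
  · have : S.pts M l = ∅ := by
      rw [eq_empty_iff_forall_notMem]
      intro p hp
      obtain ⟨-, z, hz, hl, -⟩ := mem_filter.1 hp
      have : z ∈ C := mem_filter.2 ⟨hz, hl⟩
      rw [h0] at this
      simp at this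
    simp [this]
  obtain ⟨z0, hz0, hmin⟩ := exists_min_image C S.tm h0
  obtain ⟨z1, hz1, hmax⟩ := exists_max_image C S.tm h0
  obtain ⟨w, v⟩ := l
  have hlab : ∀ z ∈ C, S.loc z / M = w ∧ S.V M w (S.tm z) / M ^ 2 = v := by
    intro z hz
    have := (mem_filter.1 hz).2
    simp only [lab, Prod.mk.injEq] at this
    obtain ⟨h1, h2⟩ := this
    rw [h1] at h2
    exact ⟨h1, h2⟩
  set i := S.tm z0
  set i' := S.tm z1
  have hii : i ≤ i' := hmin z1 hz1
  set F := (S.ev M w).filter (fun e => i ≤ e.2.1 ∧ e.2.1 < i') with hF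
  have hFc : F.card < M ^ 2 := by
    have h1 : S.V M w i + F.card = S.V M w i' := by
      unfold V
      rw [← card_union_of_disjoint]
      · congr 1
        ext e
        simp only [hF, mem_union, mem_filter]
        constructor
        · rintro (⟨h1, h2⟩ | ⟨h1, h2, h3⟩)
          · exact ⟨h1, by omega⟩
          · exact ⟨h1, h3⟩
        · rintro ⟨h1, h2⟩
          by_cases h : e.2.1 < i
          · exact Or.inl ⟨h1, h⟩
          · exact Or.inr ⟨h1, by omega, h2⟩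
      · rw [disjoint_left]
        intro e h1 h2
        have := (mem_filter.1 h1).2
        have := (mem_filter.1 h2).2.1
        omega
    have h2 := (hlab z0 hz0).2
    have h3 := (hlab z1 hz1).2
    have hM2 : 0 < M ^ 2 := by positivity
    have h4 : M ^ 2 * v ≤ S.V M w i := by rw [← h2]; exact Nat.mul_div_le _ _
    have h5 : S.V M w i' < M ^ 2 * (v + 1) := by rw [← h3]; exact Nat.lt_mul_div_succ _ hM2
    have : M ^ 2 * (v + 1) = M ^ 2 * v + M ^ 2 := by ring
    omega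
  set good := S.P.filter (fun p => (w - 1) * M ≤ S.r i p ∧ S.r i p < (w - 1) * M + 3 * M)
  set bad := (S.pts M (w, v)).filter
    (fun p => ¬ ((w - 1) * M ≤ S.r i p ∧ S.r i p < (w - 1) * M + 3 * M))
  have hgood : good.card ≤ 3 * M + S.k := S.win i _ _
  have hbad : M * bad.card ≤ F.card := by
    refine le_trans ?_ (card_filter_le F (fun e => e.1 ∈ bad))
    refine mul_card_image_le_card_of_maps_to (f := fun e : α × ℕ × ℕ => e.1)
      (fun e he => (mem_filter.1 he).2) M ?_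
    intro p hp
    obtain ⟨hp1, hp2⟩ := mem_filter.1 hp
    obtain ⟨hpP, z, hz, hl, hr⟩ := mem_filter.1 hp1
    have hzC : z ∈ C := mem_filter.2 ⟨hz, hl⟩
    have hw := (hlab z hzC).1
    have hlo : w * M ≤ S.loc z := by rw [← hw]; exact Nat.div_mul_le_self _ _
    have hhi : S.loc z < (w + 1) * M := by
      rw [← hw, mul_comm]; exact Nat.lt_mul_div_succ _ hM
    have key : ∃ x, (x ≤ w + 1 ∧ w ≤ x + 1) ∧
        ∀ u, x * M ≤ u → u < x * M + M → ¬ (u < S.r i p ↔ u < S.r (S.tm z) p) := by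
      rw [hr]
      by_cases h : (w - 1) * M ≤ S.r i p
      · have h' : (w - 1) * M + 3 * M ≤ S.r i p := by
          by_contra h'; exact hp2 ⟨h, by omega⟩
        refine ⟨w + 1, ⟨le_rfl, by omega⟩, fun u h1 h2 => ?_⟩
        have : (w + 1) * M + M ≤ (w - 1) * M + 3 * M := by
          have : (w + 1) * M + M = (w + 2) * M := by ring
          rw [this, ← add_mul]
          exact Nat.mul_le_mul_right _ (by omega)
        omega
      · have hw1 : 1 ≤ w := by
          by_contra h'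
          have : w = 0 := by omega
          simp [this] at h
        refine ⟨w - 1, ⟨by omega, by omega⟩, fun u h1 h2 => ?_⟩
        have : (w - 1) * M + M = w * M := by
          conv_rhs => rw [show w = (w - 1) + 1 by omega]
          ring
        omega
    obtain ⟨x, hx, hu⟩ := key
    have : Ico (x * M) (x * M + M) ⊆
        (((F.filter (fun e => e.1 ∈ bad)).filter (fun e => e.1 = p)).image
          (fun e => e.2.2)) := by
      intro u hu'
      obtain ⟨h1, h2⟩ := mem_Ico.1 hu'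
      obtain ⟨j, hj1, hj2, hj3⟩ := S.sep p hpP z hz i (hmin z hzC) u (hu u h1 h2)
      have hdiv : u / M = x := by
        rw [Nat.div_eq_iff hM]
        omega
      refine mem_image.2 ⟨(p, j, u), ?_, rfl⟩
      refine mem_filter.2 ⟨mem_filter.2 ⟨mem_filter.2 ⟨mem_filter.2 ⟨hj3, ?_⟩, hj1, ?_⟩, hp⟩, rfl⟩
      · simp only [hdiv]; exact hx
      · exact lt_of_lt_of_le hj2 (hmax z hzC)
    have h2 := (card_le_card this).trans card_image_le
    simpa using h2
  have hbad' : bad.card ≤ M := by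
    have : M * bad.card < M * M := by rw [sq] at hFc; omega
    exact (Nat.lt_of_mul_lt_mul_left this).le
  have : S.pts M (w, v) ⊆ good ∪ bad := by
    intro p hp
    by_cases h : (w - 1) * M ≤ S.r i p ∧ S.r i p < (w - 1) * M + 3 * M
    · exact mem_union_left _ (mem_filter.2 ⟨(mem_filter.1 hp).1, h⟩)
    · exact mem_union_right _ (mem_filter.2 ⟨hp, h⟩)
  have := (card_le_card this).trans (card_union_le _ _)
  omega

lemma sum_ev (M g W : ℕ) (hg : 0 < g) :
    ∑ w ∈ range W, (S.ev M (w / g)).card ≤ 3 * g * S.E.card := by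
  simp only [ev, card_filter]
  rw [sum_comm]
  calc _ ≤ ∑ e ∈ S.E, 3 * g := by
        refine sum_le_sum fun e _ => ?_
        rw [← card_filter]
        set x := e.2.2 / M
        have : (range W).filter (fun w => x ≤ w / g + 1 ∧ w / g ≤ x + 1) ⊆
            Ico ((x - 1) * g) ((x - 1) * g + 3 * g) := by
          intro w hw
          obtain ⟨-, h1, h2⟩ := mem_filter.1 hw
          have a1 : w / g * g ≤ w := Nat.div_mul_le_self _ _
          have a2 : w < (w / g + 1) * g := by rw [mul_comm]; exact Nat.lt_mul_div_succ _ hg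
          have a3 : (x - 1) * g ≤ w / g * g := Nat.mul_le_mul_right _ (by
            generalize w / g = y at h1 h2 ⊢
            clear_value x
            omega)
          have a4 : (w / g + 1) * g ≤ (x - 1 + 3) * g := Nat.mul_le_mul_right _ (by
            generalize w / g = y at h1 h2 ⊢
            clear_value x
            omega)
          rw [add_mul (x - 1) 3 g] at a4
          exact mem_Ico.2 ⟨by omega, by omega⟩
        simpa using card_le_card this
    _ = _ := by simp [mul_comm]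

lemma card_lab {M : ℕ} (hM : 0 < M) (hMn : M ≤ S.n) :
    ((S.Z.image (S.lab M)).card : ℝ) ≤ 8 * (S.n : ℝ) ^ 2 / (M : ℝ) ^ 2 := by
  have h := card_image_lab S.Z (fun z => S.loc z / M)
    (fun z => S.V M (S.loc z / M) (S.tm z) / M ^ 2) (S.n / M + 1)
    (fun w => (S.ev M w).card / M ^ 2)
    (fun z hz => Nat.lt_succ_of_le (Nat.div_le_div_right (S.loc_le z hz)))
    (fun z _ => Nat.div_le_div_right (S.V_le _ _ _))
  have h1 := S.sum_ev M 1 (S.n / M + 1) one_pos
  simp only [Nat.div_one] at h1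
  have h2 : M ^ 2 * ∑ w ∈ range (S.n / M + 1), (S.ev M w).card / M ^ 2 ≤ 6 * S.n ^ 2 := by
    rw [mul_sum]
    refine (sum_le_sum fun w _ => Nat.mul_div_le _ _).trans (h1.trans ?_)
    have := S.cardE
    omega
  have h3 : M ^ 2 * (S.n / M + 1) ≤ 2 * S.n ^ 2 := by
    have := Nat.mul_div_le S.n M
    nlinarith
  rw [sum_add_distrib] at h
  simp only [sum_const, card_range, smul_eq_mul, mul_one] at h
  have h4 : M ^ 2 * (S.Z.image (S.lab M)).card ≤ 8 * S.n ^ 2 := by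
    calc _ ≤ M ^ 2 * (∑ w ∈ range (S.n / M + 1), (S.ev M w).card / M ^ 2 + (S.n / M + 1)) :=
          Nat.mul_le_mul_left _ h
      _ ≤ _ := by rw [mul_add]; omega
  have hM' : (0 : ℝ) < M := by exact_mod_cast hM
  rw [le_div_iff₀ (by positivity), mul_comm]
  exact_mod_cast h4

/-- joint label of two scales -/
def jl (m g : ℕ) (z : ι) : ℕ × ℕ := (S.loc z / m, (S.lab m z).2 + (S.lab (m * g) z).2)

lemma jl_eq {m g : ℕ} {z z' : ι} (h : S.jl m g z = S.jl m g z') :
    S.lab m z = S.lab m z' ∧ S.lab (m * g) z = S.lab (m * g) z' := by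
  simp only [jl, lab, Prod.mk.injEq] at h ⊢
  obtain ⟨h1, h2⟩ := h
  have h3 : S.loc z / (m * g) = S.loc z' / (m * g) := by
    rw [← Nat.div_div_eq_div_mul, ← Nat.div_div_eq_div_mul, h1]
  rw [h1, h3] at h2
  rw [h1, h3]
  rcases le_total (S.tm z) (S.tm z') with h | h
  · have a1 := Nat.div_le_div_right (c := m ^ 2) (S.V_mono m (S.loc z' / m) h)
    have a2 := Nat.div_le_div_right (c := (m * g) ^ 2) (S.V_mono (m * g) (S.loc z' / (m * g)) h)
    omega
  · have a1 := Nat.div_le_div_right (c := m ^ 2) (S.V_mono m (S.loc z' / m) h)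
    have a2 := Nat.div_le_div_right (c := (m * g) ^ 2) (S.V_mono (m * g) (S.loc z' / (m * g)) h)
    omega

lemma card_jl {m g : ℕ} (hm : 0 < m) (hg : 0 < g) (hmn : m ≤ S.n) :
    ((S.Z.image (S.jl m g)).card : ℝ) ≤ 14 * (S.n : ℝ) ^ 2 / (m : ℝ) ^ 2 := by
  have h := card_image_lab S.Z (fun z => S.loc z / m)
    (fun z => (S.lab m z).2 + (S.lab (m * g) z).2) (S.n / m + 1)
    (fun w => (S.ev m w).card / m ^ 2 + (S.ev (m * g) (w / g)).card / (m * g) ^ 2)
    (fun z hz => Nat.lt_succ_of_le (Nat.div_le_div_right (S.loc_le z hz)))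
    (fun z _ => by
      refine add_le_add (Nat.div_le_div_right (S.V_le _ _ _)) ?_
      rw [Nat.div_div_eq_div_mul]
      exact Nat.div_le_div_right (S.V_le _ _ _))
  have h1 := S.sum_ev m 1 (S.n / m + 1) one_pos
  simp only [Nat.div_one] at h1
  have h2 : m ^ 2 * ∑ w ∈ range (S.n / m + 1), (S.ev m w).card / m ^ 2 ≤ 6 * S.n ^ 2 := by
    rw [mul_sum]
    refine (sum_le_sum fun w _ => Nat.mul_div_le _ _).trans (h1.trans ?_)
    have := S.cardE
    omega
  have h1' := S.sum_ev (m * g) g (S.n / m + 1) hg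
  have h2' : m ^ 2 * ∑ w ∈ range (S.n / m + 1), (S.ev (m * g) (w / g)).card / (m * g) ^ 2 ≤
      6 * S.n ^ 2 := by
    have : g * (m ^ 2 * ∑ w ∈ range (S.n / m + 1), (S.ev (m * g) (w / g)).card / (m * g) ^ 2) ≤
        g * (6 * S.n ^ 2) := by
      calc _ ≤ (m * g) ^ 2 *
            ∑ w ∈ range (S.n / m + 1), (S.ev (m * g) (w / g)).card / (m * g) ^ 2 := by
            rw [← mul_assoc]
            refine Nat.mul_le_mul_right _ ?_
            nlinarith [Nat.zero_le (m ^ 2), Nat.mul_le_mul_left (g * m ^ 2) hg]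
        _ ≤ 3 * g * S.E.card := by
            rw [mul_sum]
            exact (sum_le_sum fun w _ => Nat.mul_div_le _ _).trans h1'
        _ ≤ _ := by
            have := S.cardE
            nlinarith
    exact Nat.le_of_mul_le_mul_left this hg
  have h3 : m ^ 2 * (S.n / m + 1) ≤ 2 * S.n ^ 2 := by
    have := Nat.mul_div_le S.n m
    nlinarith
  rw [sum_add_distrib, sum_add_distrib] at h
  simp only [sum_const, card_range, smul_eq_mul, mul_one] at h
  have h4 : m ^ 2 * (S.Z.image (S.jl m g)).card ≤ 14 * S.n ^ 2 := by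
    refine (Nat.mul_le_mul_left _ h).trans ?_
    rw [mul_add, mul_add]
    omega
  have hM' : (0 : ℝ) < m := by exact_mod_cast hm
  rw [le_div_iff₀ (by positivity), mul_comm]
  exact_mod_cast h4

lemma card_lb {M : ℕ} (hM : 0 < M) (hMn : M ≤ S.n) (hk : S.k ≤ M) :
    ((S.Z.image (fun z => (S.lab M z, S.b z))).card : ℝ) ≤ 40 * (S.n : ℝ) ^ 2 / M := by
  have h1 : S.Z.image (fun z => (S.lab M z, S.b z)) ⊆
      (S.Z.image (S.lab M)).biUnion (fun l => (S.pts M l).image (fun p => (l, p))) := by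
    intro y hy
    obtain ⟨z, hz, rfl⟩ := mem_image.1 hy
    exact mem_biUnion.2 ⟨_, mem_image_of_mem _ hz, mem_image_of_mem _ (S.b_mem hz)⟩
  have h2 : (S.Z.image (fun z => (S.lab M z, S.b z))).card ≤
      (S.Z.image (S.lab M)).card * (5 * M) := by
    refine (card_le_card h1).trans (card_biUnion_le_card_mul _ _ _ fun l _ => ?_)
    exact card_image_le.trans ((S.card_pts hM l).trans (by omega))
  have hM' : (0 : ℝ) < M := by exact_mod_cast hM
  calc _ ≤ ((S.Z.image (S.lab M)).card : ℝ) * (5 * M) := by exact_mod_cast h2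
    _ ≤ 8 * (S.n : ℝ) ^ 2 / (M : ℝ) ^ 2 * (5 * M) := by gcongr; exact S.card_lab hM hMn
    _ = _ := by field_simp; ring

/-- lines of the coarse cell of `z0` whose middle point lies in the fine cell of `z0` -/
def G0 (m M : ℕ) (z0 : ι) : Finset ι :=
  S.Z.filter (fun z => S.lab M z = S.lab M z0 ∧ S.b z ∈ S.pts m (S.lab m z0))

lemma sum_G0 {m g : ℕ} (hm : 0 < m) (hg : 0 < g) (hMn : m * g ≤ S.n) (hk : S.k ≤ m) {δ : ℝ}
    (hδ : 0 ≤ δ) (hZ : δ * (S.n : ℝ) ^ 2 ≤ S.Z.card) :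
    δ ^ 2 / 89600 * S.Z.card * (m * (m * g : ℕ)) ≤ ∑ z0 ∈ S.Z, ((S.G0 m (m * g) z0).card : ℝ) := by
  have hmM : m ≤ m * g := Nat.le_mul_of_pos_right _ hg
  have hM : 0 < m * g := Nat.mul_pos hm hg
  have hm' : (0 : ℝ) < m := by exact_mod_cast hm
  have hM' : (0 : ℝ) < (m * g : ℕ) := by exact_mod_cast hM
  have hn' : (0 : ℝ) < S.n := by exact_mod_cast (hM.trans_le hMn)
  have h1 := sum_fg (S.jl m g) (fun z => (S.lab (m * g) z, S.b z)) S.Z _ _
    (S.card_jl hm hg (hmM.trans hMn)) (S.card_lb hM hMn (hk.trans hmM)) (by positivity)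
    (by positivity)
  have h2 : ∑ x ∈ S.Z, (S.Z.filter (fun x' => S.jl m g x' = S.jl m g x)).card *
      (S.Z.filter (fun x' => (S.lab (m * g) x', S.b x') = (S.lab (m * g) x, S.b x))).card ≤
      ∑ z0 ∈ S.Z, (S.G0 m (m * g) z0).card * (5 * m) := by
    simp only [card_filter, sum_mul_sum]
    rw [sum_comm]
    refine sum_le_sum fun z0 hz0 => ?_
    rw [sum_comm, G0, card_filter, sum_mul]
    refine sum_le_sum fun z hz => ?_
    simp only [ite_zero_mul_ite_zero, mul_one]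
    rw [← card_filter]
    set Y := S.Z.filter (fun x => S.jl m g z0 = S.jl m g x ∧
      (S.lab (m * g) z, S.b z) = (S.lab (m * g) x, S.b x)) with hY
    rcases Y.eq_empty_or_nonempty with h0 | ⟨x, hx⟩
    · simp [h0]
    obtain ⟨hx1, hx2, hx3⟩ := mem_filter.1 hx
    obtain ⟨e1, e2⟩ := S.jl_eq hx2
    simp only [Prod.mk.injEq] at hx3
    rw [if_pos ⟨hx3.1.trans e2.symm, by rw [hx3.2, e1]; exact S.b_mem hx1⟩, one_mul]
    refine le_trans ?_ ((S.card_pts hm (S.lab m z0)).trans (by omega))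
    refine card_le_card_of_injOn S.a ?_ ?_
    · intro y hy
      obtain ⟨hy1, hy2, -⟩ := mem_filter.1 (mem_coe.1 hy)
      rw [(S.jl_eq hy2).1]
      exact S.a_mem hy1
    · intro y hy y' hy' e
      obtain ⟨hy1, -, hy3⟩ := mem_filter.1 (mem_coe.1 hy)
      obtain ⟨hy1', -, hy3'⟩ := mem_filter.1 (mem_coe.1 hy')
      simp only [Prod.mk.injEq] at hy3 hy3'
      exact S.lin.ab _ hy1 _ hy1' e (hy3.2.symm.trans hy3'.2)
  have h3 : ∑ x ∈ S.Z, ((S.Z.filter (fun x' => S.jl m g x' = S.jl m g x)).card : ℝ) *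
      (S.Z.filter (fun x' => (S.lab (m * g) x', S.b x') = (S.lab (m * g) x, S.b x))).card ≤
      (∑ z0 ∈ S.Z, ((S.G0 m (m * g) z0).card : ℝ)) * (5 * m) := by
    rw [sum_mul]
    exact_mod_cast h2
  have h4 := h1.trans h3
  set M : ℝ := ((m * g : ℕ) : ℝ)
  set X : ℝ := (S.Z.card : ℝ)
  have hX : 0 ≤ X := by positivity
  have h5 : (δ * (S.n : ℝ) ^ 2) ^ 2 ≤ X ^ 2 := by gcongr
  refine le_of_mul_le_mul_right (le_trans ?_ h4) (by positivity : (0 : ℝ) < 5 * m)
  rw [le_div_iff₀ (by positivity)]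
  calc _ = (δ * (S.n : ℝ) ^ 2) ^ 2 * X := by field_simp; ring
    _ ≤ X ^ 2 * X := by gcongr
    _ = X ^ 3 := by ring

lemma card_G0 {m : ℕ} (M : ℕ) (hm : 0 < m) (hk : S.k ≤ m) (z0 : ι)
    (A : Finset α) :
    ((S.G0 m M z0).filter (fun z => S.a z ∈ A)).card ≤ A.card * (5 * m) := by
  refine le_trans ?_ (Nat.mul_le_mul_left _ ((S.card_pts hm (S.lab m z0)).trans (by omega)))
  rw [← card_product]
  refine card_le_card_of_injOn (fun z => (S.a z, S.b z)) ?_ ?_
  · intro z hz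
    obtain ⟨h1, h2⟩ := mem_filter.1 (mem_coe.1 hz)
    simp only [coe_product, Set.mem_prod, mem_coe]
    exact ⟨h2, (mem_filter.1 h1).2.2⟩
  · intro z hz z' hz' e
    simp only [Prod.mk.injEq] at e
    exact S.lin.ab _ (mem_filter.1 (mem_filter.1 (mem_coe.1 hz)).1).1 _
      (mem_filter.1 (mem_filter.1 (mem_coe.1 hz')).1).1 e.1 e.2

lemma one_scale {m M : ℕ} (hm : 0 < m) (hM : 0 < M) (hk : S.k ≤ m) (hkM : S.k ≤ M) (z0 : ι)
    (G : Finset ι) (hG : G ⊆ S.G0 m M z0) {η : ℝ} (hη : 0 < η)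
    (hGc : η / 4 * (m * M) ≤ G.card) (hMm : 1500 * (M : ℝ) ≤ (η / 20) ^ 4 * m ^ 2) :
    (η / 20) ^ 4 * m ^ 4 / 2 ≤ (((cyc S.a S.c G).filter (Rb S.b)).card : ℝ) := by
  set A := S.pts M (S.lab M z0)
  set R := S.pts m (S.lab m z0)
  have hGZ : G ⊆ S.Z := fun z hz => (mem_filter.1 (hG hz)).1
  have haA : ∀ z ∈ G, S.a z ∈ A := fun z hz => by
    have := S.a_mem (M := M) (hGZ hz)
    rwa [(mem_filter.1 (hG hz)).2.1] at this
  have hcA : ∀ z ∈ G, S.c z ∈ A := fun z hz => by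
    have := S.c_mem (M := M) (hGZ hz)
    rwa [(mem_filter.1 (hG hz)).2.1] at this
  have hbR : ∀ z ∈ G, S.b z ∈ R := fun z hz => (mem_filter.1 (hG hz)).2.2
  have hA : A.card ≤ 5 * M := (S.card_pts hM _).trans (by omega)
  have hR : R.card ≤ 5 * m := (S.card_pts hm _).trans (by omega)
  have h1 := card_cyc S.a S.c G A haA hcA
  have h2 := card_not_rb S.lin hGZ A R haA hbR
  have h3 := card_filter_add_card_filter_not (s := cyc S.a S.c G) (Rb S.b)
  have h1' : G.card ^ 4 ≤ (5 * M) ^ 4 * (cyc S.a S.c G).card :=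
    h1.trans (Nat.mul_le_mul_right _ (Nat.pow_le_pow_left hA 4))
  have h2' : ((cyc S.a S.c G).filter (fun q => ¬ Rb S.b q)).card ≤
      6 * (5 * M * (5 * m * (5 * m))) := h2.trans (by gcongr)
  have hm' : (0 : ℝ) < m := by exact_mod_cast hm
  have hM' : (0 : ℝ) < M := by exact_mod_cast hM
  have h4 : (η / 20) ^ 4 * m ^ 4 ≤ ((cyc S.a S.c G).card : ℝ) := by
    have e1 : ((G.card : ℝ)) ^ 4 ≤ (5 * M) ^ 4 * (cyc S.a S.c G).card := by exact_mod_cast h1'
    have e2 : (η / 4 * (m * M)) ^ 4 ≤ (G.card : ℝ) ^ 4 := by gcongr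
    refine le_of_mul_le_mul_left ?_ (by positivity : (0 : ℝ) < (5 * M) ^ 4)
    calc _ = (η / 4 * (m * M)) ^ 4 := by ring
      _ ≤ _ := e2.trans e1
  have h5 : (((cyc S.a S.c G).filter (fun q => ¬ Rb S.b q)).card : ℝ) ≤
      (η / 20) ^ 4 * m ^ 4 / 2 := by
    calc _ ≤ 6 * (5 * (M : ℝ) * (5 * m * (5 * m))) := by exact_mod_cast h2'
      _ = 1500 * (M : ℝ) * m ^ 2 / 2 := by ring
      _ ≤ (η / 20) ^ 4 * m ^ 2 * m ^ 2 / 2 := by gcongr
      _ = _ := by ring
  have h6 : (((cyc S.a S.c G).filter (Rb S.b)).card : ℝ) +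
      ((cyc S.a S.c G).filter (fun q => ¬ Rb S.b q)).card = (cyc S.a S.c G).card := by
    exact_mod_cast h3
  linarith

theorem core_aux (t e J L m : ℕ) (he : e / 4 + 1 = t) {δ : ℝ} (hδ : 0 < δ) (hL : 0 < L) (hm : 0 < m) (hk : S.k ≤ m)
    (hn : m * L ^ J ≤ S.n) (hZ : δ * (S.n : ℝ) ^ 2 ≤ S.Z.card)
    (hJ : 62500 * (t : ℝ) < δ ^ 2 / 89600 * (δ ^ 2 / 89600 / 20) ^ 4 * J)
    (hLJ : 100 * (J : ℝ) ≤ δ ^ 2 / 89600 * L)
    (hmL : 1500 * (L : ℝ) ^ J ≤ (δ ^ 2 / 89600 / 20) ^ 4 * m) :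
    ∃ Y ⊆ S.Z, ∃ V ⊆ S.P, V.card ≤ e + (if 4 ∣ e then 4 else 5) ∧ e ≤ Y.card ∧
      ∀ z ∈ Y, S.a z ∈ V ∧ S.b z ∈ V ∧ S.c z ∈ V := by
  classical
  set η : ℝ := δ ^ 2 / 89600 with hη
  have hη0 : 0 < η := by positivity
  have hm' : (0 : ℝ) < m := by exact_mod_cast hm
  have hL' : (1 : ℝ) ≤ L := by exact_mod_cast hL
  have hMpos : ∀ j, 0 < m * L ^ j := fun j => by positivity
  have hMk : ∀ j, S.k ≤ m * L ^ j := fun j =>
    hk.trans (Nat.le_mul_of_pos_right _ (by positivity))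
  have hMn : ∀ j < J, m * L ^ j ≤ S.n := fun j hj =>
    (Nat.mul_le_mul_left _ (Nat.pow_le_pow_right hL hj.le)).trans hn
  have hn0 : (0 : ℝ) < S.n := by exact_mod_cast (hMpos J).trans_le hn
  have hZ0 : S.Z.Nonempty := by
    rw [← card_pos]
    have : (0 : ℝ) < S.Z.card := lt_of_lt_of_le (by positivity) hZ
    exact_mod_cast this
  set x : ι → ℕ → ℝ := fun z0 j =>
    ((S.G0 m (m * L ^ j) z0).card : ℝ) / (m * (m * L ^ j : ℕ)) with hx
  have hden : ∀ j, (0 : ℝ) < m * (m * L ^ j : ℕ) := fun j => by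
    have : (0 : ℝ) < (m * L ^ j : ℕ) := by exact_mod_cast hMpos j
    positivity
  have h1 : ∑ _z0 ∈ S.Z, η * J ≤ ∑ z0 ∈ S.Z, ∑ j ∈ range J, x z0 j := by
    rw [sum_comm]
    calc _ = ∑ _j ∈ range J, η * S.Z.card := by simp; ring
      _ ≤ _ := by
        refine sum_le_sum fun j hj => ?_
        have := S.sum_G0 hm (by positivity : 0 < L ^ j) (hMn j (mem_range.1 hj)) hk hδ.le hZ
        simp only [hx]
        rw [← sum_div, le_div_iff₀ (hden j)]
        exact this
  obtain ⟨z0, hz0, h2⟩ := exists_le_of_sum_le hZ0 h1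
  set A : ℕ → Finset α := fun j => S.pts (m * L ^ j) (S.lab (m * L ^ j) z0) with hA
  have hAc : ∀ j, (A j).card ≤ 5 * (m * L ^ j) := fun j =>
    (S.card_pts (hMpos j) _).trans (by have := hMk j; omega)
  have haA : ∀ j, ∀ z ∈ S.G0 m (m * L ^ j) z0, S.a z ∈ A j := fun j z hz => by
    have := S.a_mem (M := m * L ^ j) (mem_filter.1 hz).1
    rwa [(mem_filter.1 hz).2.1] at this
  have hx25 : ∀ j, x z0 j ≤ 25 := fun j => by
    have e1 := S.card_G0 (m * L ^ j) hm hk z0 (A j)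
    rw [filter_true_of_mem (haA j)] at e1
    have e2 : (S.G0 m (m * L ^ j) z0).card ≤ 25 * (m * (m * L ^ j)) :=
      (e1.trans (Nat.mul_le_mul_right _ (hAc j))).trans (le_of_eq (by ring))
    simp only [hx]
    rw [div_le_iff₀ (hden j)]
    exact_mod_cast e2
  set good := (range J).filter (fun j => η / 2 ≤ x z0 j) with hgood
  have h3 : η * J / 50 ≤ good.card := by
    have e1 : ∑ j ∈ range J, x z0 j ≤
        ∑ j ∈ range J, ((if η / 2 ≤ x z0 j then (25 : ℝ) else 0) + η / 2) := by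
      refine sum_le_sum fun j _ => ?_
      have := hx25 j
      split_ifs with h
      · linarith
      · linarith [not_le.1 h]
    rw [sum_add_distrib, ← sum_filter] at e1
    simp only [sum_const, card_range, nsmul_eq_mul] at e1
    linarith
  set G : ℕ → Finset ι := fun j =>
    (S.G0 m (m * L ^ j) z0).filter (fun z => ¬ S.a z ∈ (range j).biUnion A) with hG
  have hGc : ∀ j ∈ good, η / 4 * (m * (m * L ^ j : ℕ)) ≤ (G j).card := by
    intro j hj
    obtain ⟨hj1, hj2⟩ := mem_filter.1 hj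
    have e1 := card_filter_add_card_filter_not (s := S.G0 m (m * L ^ j) z0)
      (fun z => S.a z ∈ (range j).biUnion A)
    have e2 := S.card_G0 (m * L ^ j) hm hk z0 ((range j).biUnion A)
    have e3 : L * ((range j).biUnion A).card ≤ J * (5 * (m * L ^ j)) := by
      calc _ ≤ L * ∑ j' ∈ range j, (A j').card := Nat.mul_le_mul_left _ card_biUnion_le
        _ = ∑ j' ∈ range j, L * (A j').card := mul_sum _ _ _
        _ ≤ ∑ j' ∈ range j, 5 * (m * L ^ j) := by
          refine sum_le_sum fun j' hj' => ?_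
          calc _ ≤ L * (5 * (m * L ^ j')) := Nat.mul_le_mul_left _ (hAc j')
            _ = 5 * (m * L ^ (j' + 1)) := by ring
            _ ≤ _ := by
              have := Nat.pow_le_pow_right hL (show j' + 1 ≤ j from mem_range.1 hj')
              gcongr
        _ = j * (5 * (m * L ^ j)) := by simp
        _ ≤ _ := Nat.mul_le_mul_right _ (mem_range.1 hj1).le
    simp only [hx] at hj2
    rw [le_div_iff₀ (hden j)] at hj2
    have e1' : (((S.G0 m (m * L ^ j) z0).filter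
        (fun z => S.a z ∈ (range j).biUnion A)).card : ℝ) + (G j).card =
        (S.G0 m (m * L ^ j) z0).card := by exact_mod_cast e1
    have e2' : (((S.G0 m (m * L ^ j) z0).filter
        (fun z => S.a z ∈ (range j).biUnion A)).card : ℝ) ≤
        ((range j).biUnion A).card * (5 * m) := by exact_mod_cast e2
    have e3' : (L : ℝ) * ((range j).biUnion A).card ≤ J * (5 * (m * L ^ j : ℕ)) := by
      exact_mod_cast e3
    have e4 : (((range j).biUnion A).card : ℝ) * (5 * m) ≤ η / 4 * (m * (m * L ^ j : ℕ)) := by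
      refine le_of_mul_le_mul_left ?_ (by linarith : (0 : ℝ) < L)
      calc _ = (L : ℝ) * ((range j).biUnion A).card * (5 * m) := by ring
        _ ≤ J * (5 * (m * L ^ j : ℕ)) * (5 * m) := by gcongr
        _ = 100 * (J : ℝ) * (m * (m * L ^ j : ℕ)) / 4 := by ring
        _ ≤ η * L * (m * (m * L ^ j : ℕ)) / 4 := by have := (hden j).le; gcongr
        _ = _ := by ring
    linarith
  set C := good.biUnion (fun j => (cyc S.a S.c (G j)).filter (Rb S.b)) with hC
  have hCc : (good.card : ℝ) * ((η / 20) ^ 4 * m ^ 4 / 2) ≤ C.card := by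
    rw [hC, card_biUnion, Nat.cast_sum]
    · calc _ = ∑ _j ∈ good, (η / 20) ^ 4 * m ^ 4 / 2 := by simp
        _ ≤ _ := by
          refine sum_le_sum fun j hj => ?_
          refine S.one_scale hm (hMpos j) hk (hMk j) z0 (G j) (filter_subset _ _) hη0 (hGc j hj) ?_
          have hjJ : j ≤ J := (mem_range.1 (mem_filter.1 hj).1).le
          have : (L : ℝ) ^ j ≤ (L : ℝ) ^ J := pow_le_pow_right₀ hL' hjJ
          push_cast
          calc _ = 1500 * (L : ℝ) ^ j * m := by ring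
            _ ≤ 1500 * (L : ℝ) ^ J * m := by gcongr
            _ ≤ (η / 20) ^ 4 * m * m := by gcongr
            _ = _ := by ring
    · have key : ∀ j j', j < j' → ∀ z, z ∈ G j → z ∈ G j' → False := by
        intro j j' hjj z h1 h2
        exact (mem_filter.1 h2).2 (mem_biUnion.2 ⟨j, mem_range.2 hjj,
          haA j z (mem_filter.1 h1).1⟩)
      intro j _ j' _ hne
      rw [Function.onFun, disjoint_left]
      intro q h1 h2
      have f1 := (mem_cyc.1 (mem_filter.1 h1).1).1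
      have f2 := (mem_cyc.1 (mem_filter.1 h2).1).1
      rcases lt_or_gt_of_ne hne with h | h
      · exact key _ _ h _ f1 f2
      · exact key _ _ h _ f2 f1
  refine config_of_cycles S.lin S.P (S.pts m (S.lab m z0)) S.haP S.hbP S.hcP C ?_ ?_ t e he ?_
  · intro q hq
    obtain ⟨j, -, hq⟩ := mem_biUnion.1 hq
    have hs : ∀ z ∈ G j, z ∈ S.Z.filter (fun z => S.b z ∈ S.pts m (S.lab m z0)) := fun z hz =>
      mem_filter.2 ⟨(mem_filter.1 (mem_filter.1 hz).1).1, (mem_filter.1 (mem_filter.1 hz).1).2.2⟩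
    obtain ⟨m1, m2, m3, m4, r⟩ := mem_cyc.1 (mem_filter.1 hq).1
    exact mem_cyc.2 ⟨hs _ m1, hs _ m2, hs _ m3, hs _ m4, r⟩
  · intro q hq
    obtain ⟨j, -, hq⟩ := mem_biUnion.1 hq
    exact (mem_filter.1 hq).2
  · have hR : (S.pts m (S.lab m z0)).card ≤ 5 * m := (S.card_pts hm _).trans (by omega)
    have e1 : (S.pts m (S.lab m z0)).card ^ 4 * t ≤ (5 * m) ^ 4 * t := by gcongr
    refine lt_of_le_of_lt e1 ?_
    have e2 : ((5 * (m : ℝ)) ^ 4 * t) < C.card := by
      calc _ = 62500 * (t : ℝ) * (m ^ 4 / 100) := by ring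
        _ < η * (η / 20) ^ 4 * J * (m ^ 4 / 100) := by gcongr
        _ = η * J / 50 * ((η / 20) ^ 4 * m ^ 4 / 2) := by ring
        _ ≤ (good.card : ℝ) * ((η / 20) ^ 4 * m ^ 4 / 2) := by gcongr
        _ ≤ _ := hCc
    exact_mod_cast e2

end Sweep

theorem core (e k : ℕ) {δ : ℝ} (hδ : 0 < δ) : ∃ n0 : ℕ, ∀ {α ι : Type} [DecidableEq α]
    [DecidableEq ι] (S : Sweep α ι), S.k = k → n0 ≤ S.n → δ * (S.n : ℝ) ^ 2 ≤ S.Z.card →
    ∃ Y ⊆ S.Z, ∃ V ⊆ S.P, V.card ≤ e + (if 4 ∣ e then 4 else 5) ∧ e ≤ Y.card ∧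
      ∀ z ∈ Y, S.a z ∈ V ∧ S.b z ∈ V ∧ S.c z ∈ V := by
  obtain ⟨t, he⟩ : ∃ t, e / 4 + 1 = t := ⟨_, rfl⟩
  set η : ℝ := δ ^ 2 / 89600 with hη
  have hη0 : 0 < η := by positivity
  obtain ⟨J, hJ⟩ := exists_nat_gt (62500 * (t : ℝ) / (η * (η / 20) ^ 4))
  obtain ⟨L, hL⟩ := exists_nat_gt (100 * (J : ℝ) / η)
  obtain ⟨m, hm⟩ := exists_nat_gt (max (k : ℝ) (1500 * (L : ℝ) ^ J / (η / 20) ^ 4))
  have hL0 : 0 < L := by
    have : (0 : ℝ) < L := lt_of_le_of_lt (by positivity) hL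
    exact_mod_cast this
  have hkm : k < m := by exact_mod_cast (le_max_left _ _).trans_lt hm
  refine ⟨m * L ^ J, fun S hk hn hZ => S.core_aux t e J L m he hδ hL0 (by omega) (by omega) hn hZ
    ?_ ?_ ?_⟩
  · rw [div_lt_iff₀ (by positivity)] at hJ
    rw [← hη]
    linarith
  · rw [div_lt_iff₀ hη0] at hL
    rw [← hη]
    linarith
  · have := (le_max_right _ _).trans_lt hm
    rw [div_lt_iff₀ (by positivity)] at this
    rw [← hη]
    linarith

end Pool.Agent.MP_38296a_co
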